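import Mathlib

/-!
# Points on plane curves (interface of PROJECT BD, rows A2 and A3)
-/

set_option autoImplicit false

open Polynomial

namespace BD

universe u

/-- Every plane curve `G (t, y) = 0` over `F`, monic and separable in `y` and irreducible over the
algebraic closure of `F`, has a point with coordinates in `F` outside of finitely many lines
`h (t) = 0`. -/
def PlanePAC (F : Type u) [Field F] : Prop :=
  ∀ (G u v : Polynomial (Polynomial F)) (r h : Polynomial F), G.Monic → r ≠ 0 →
    u * G + v * derivative G = C r →
    Irreducible (G.map (mapRingHom (algebraMap F (AlgebraicClosure F)))) → h ≠ 0 →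
    ∃ a b : F, (G.map (evalRingHom a)).eval b = 0 ∧ h.eval a ≠ 0

end BD
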