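import Mathlib

/-!
# Absolute irreducibility (Helper71, row A2 of PROJECT BD)

Let `F` be a perfect field which is algebraically closed in `E`. The minimal polynomial of an
element `θ` of `E` over the ring generated by algebraically independent elements `t` of `E` stays
irreducible over the algebraic closure of `F`.
-/

set_option autoImplicit false

open Polynomial

namespace BD

universe u

section irr

variable {F E : Type u} [Field F] [Field E] [Algebra F E]

/-- If `F` is algebraically closed in `E`, irreducible polynomials over `F` are irreducible over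
`E`. -/
theorem irreducible_map_of (halg : ∀ a : E, IsAlgebraic F a → a ∈ (algebraMap F E).range)
    {p : F[X]} (hp : Irreducible p) (hm : p.Monic) : Irreducible (p.map (algebraMap F E)) := by
  rw [(hm.map (algebraMap F E)).irreducible_iff_natDegree]
  refine ⟨fun h => ?_, fun f g hf hg hfg => ?_⟩
  · have h1 : p = 1 := by
      apply Polynomial.map_injective _ (algebraMap F E).injective
      rw [h, Polynomial.map_one]
    rw [h1] at hp
    exact hp.not_isUnit isUnit_one
  · have h1 := integralClosure.mem_lifts_of_monic_of_dvd_map E hm hf (hfg ▸ dvd_mul_right f g)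
    have h2 : f ∈ lifts (algebraMap F E) := by
      rw [lifts_iff_coeff_lifts] at h1 ⊢
      intro n
      obtain ⟨z, hz⟩ := h1 n
      have h3 : IsIntegral F (f.coeff n) := by
        rw [← hz]
        exact z.2
      exact halg _ h3.isAlgebraic
    obtain ⟨f₀, hf₀, hdeg, hf₀m⟩ := lifts_and_natDegree_eq_and_monic h2 hf
    have h3 : f₀ ∣ p := by
      rw [← Polynomial.map_dvd_map' (algebraMap F E), hf₀, ← hfg]
      exact dvd_mul_right f g
    obtain ⟨g₀, hg₀⟩ := h3
    have h4 : g.natDegree = g₀.natDegree := by
      have h5 : g = g₀.map (algebraMap F E) := by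
        apply mul_left_cancel₀ hf.ne_zero
        rw [hfg, hg₀, Polynomial.map_mul, hf₀]
      rw [h5, natDegree_map]
    rw [← hdeg, h4]
    rcases hp.isUnit_or_isUnit hg₀ with h | h
    · exact Or.inl (natDegree_eq_zero_of_isUnit h)
    · exact Or.inr (natDegree_eq_zero_of_isUnit h)

variable {M W : Type u} [Field M] [Field W] [Algebra F M] [Algebra E M] [IsScalarTower F E M]
  [Algebra F W] [Algebra.IsAlgebraic F W] [PerfectField F]

/-- Linear disjointness, with finitely many terms. -/
theorem ld (halg : ∀ a : E, IsAlgebraic F a → a ∈ (algebraMap F E).range) (ι : W →ₐ[F] M)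
    (lam : W →ₗ[F] F) {κ : Type*} [Fintype κ] (c : κ → W) (e : κ → E)
    (h : ∑ i, ι (c i) * algebraMap E M (e i) = 0) : ∑ i, lam (c i) • e i = 0 := by
  classical
  let L := IntermediateField.adjoin F (Set.range c)
  have hfd : FiniteDimensional F L := by
    have : Finite (Set.range c) := Set.finite_range c
    exact IntermediateField.finiteDimensional_adjoin fun z _ => Algebra.IsIntegral.isIntegral z
  let pb := Field.powerBasisOfFiniteOfSeparable F L
  let c' : κ → L := fun i => ⟨c i, IntermediateField.subset_adjoin F _ ⟨i, rfl⟩⟩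
  set g : M := ι (pb.gen : W) with hg
  have hmin : minpoly E g = (minpoly F pb.gen).map (algebraMap F E) := by
    symm
    apply minpoly.eq_of_irreducible_of_monic
    · exact irreducible_map_of halg (minpoly.irreducible (Algebra.IsIntegral.isIntegral _))
        (minpoly.monic (Algebra.IsIntegral.isIntegral _))
    · rw [aeval_map_algebraMap]
      have h1 : aeval g (minpoly F pb.gen) =
          (ι.comp L.val) (aeval pb.gen (minpoly F pb.gen)) := by
        rw [← aeval_algHom_apply]
        rfl
      rw [h1, minpoly.aeval, map_zero]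
    · exact (minpoly.monic (Algebra.IsIntegral.isIntegral _)).map _
  have hdeg : (minpoly E g).natDegree = pb.dim := by
    rw [hmin, natDegree_map, pb.natDegree_minpoly]
  have hli : LinearIndependent E fun j : Fin pb.dim => g ^ (j : ℕ) := by
    have h1 := linearIndependent_pow (K := E) g
    rw [hdeg] at h1
    exact h1
  have hc : ∀ i, c i = ∑ j : Fin pb.dim, pb.basis.repr (c' i) j • (pb.gen : W) ^ (j : ℕ) := by
    intro i
    have h1 := congrArg (Subtype.val : L → W) (pb.basis.sum_repr (c' i)).symm
    change c i = _ at h1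
    rw [h1]
    push_cast
    refine Finset.sum_congr rfl fun j _ => ?_
    rw [pb.basis_eq_pow]
    push_cast
    rfl
  have key : ∀ j, ∑ i, pb.basis.repr (c' i) j • e i = 0 := by
    have h1 : ∑ j : Fin pb.dim, (∑ i, pb.basis.repr (c' i) j • e i) • g ^ (j : ℕ) = 0 := by
      rw [← h]
      simp only [Finset.sum_smul]
      rw [Finset.sum_comm]
      refine Finset.sum_congr rfl fun i _ => ?_
      conv_rhs => rw [hc i]
      rw [map_sum, Finset.sum_mul]
      refine Finset.sum_congr rfl fun j _ => ?_
      rw [map_smul, map_pow, ← hg, Algebra.smul_def (_ • e i), Algebra.smul_def, map_mul,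
        ← IsScalarTower.algebraMap_apply, Algebra.smul_def]
      ring
    exact fun j => Fintype.linearIndependent_iff.1 hli _ h1 j
  calc ∑ i, lam (c i) • e i
      = ∑ i, ∑ j : Fin pb.dim, lam ((pb.gen : W) ^ (j : ℕ)) • pb.basis.repr (c' i) j • e i := by
        refine Finset.sum_congr rfl fun i _ => ?_
        conv_lhs => rw [hc i]
        rw [map_sum, Finset.sum_smul]
        refine Finset.sum_congr rfl fun j _ => ?_
        rw [map_smul, smul_assoc, smul_comm]
    _ = ∑ j : Fin pb.dim, lam ((pb.gen : W) ^ (j : ℕ)) • ∑ i, pb.basis.repr (c' i) j • e i := by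
        rw [Finset.sum_comm]
        refine Finset.sum_congr rfl fun j _ => ?_
        rw [Finset.smul_sum]
    _ = 0 := Finset.sum_eq_zero fun j _ => by rw [key j, smul_zero]

end irr

section abs

variable {F E : Type u} [Field F] [Field E] [Algebra F E] [PerfectField F]

theorem natDegree_le_of_root (halg : ∀ a : E, IsAlgebraic F a → a ∈ (algebraMap F E).range)
    {σ : Type u} (t : σ → E) (θ : E) (G : (MvPolynomial σ F)[X])
    (hdvd : ∀ Q : (MvPolynomial σ F)[X],
      Q.eval₂ (MvPolynomial.aeval t : MvPolynomial σ F →ₐ[F] E).toRingHom θ = 0 ↔ G ∣ Q)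
    {M W : Type u} [Field M] [Field W] [Algebra F M] [Algebra E M] [IsScalarTower F E M]
    [Algebra F W] [Algebra.IsAlgebraic F W] (ι : W →ₐ[F] M)
    (U : (MvPolynomial σ W)[X]) (hU : U.Monic)
    (h : U.eval₂ (MvPolynomial.eval₂Hom ι.toRingHom fun i => algebraMap E M (t i))
      (algebraMap E M θ) = 0) : G.natDegree ≤ U.natDegree := by
  classical
  obtain ⟨lam, hlam⟩ : ∃ lam : W →ₗ[F] F, lam 1 = 1 := by
    obtain ⟨g, hg⟩ := LinearMap.exists_leftInverse_of_injective (Algebra.linearMap F W)
      (LinearMap.ker_eq_bot.2 (algebraMap F W).injective)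
    refine ⟨g, ?_⟩
    have := congrArg (fun f : F →ₗ[F] F => f 1) hg
    simpa using this
  set n := U.natDegree with hn
  set T : Finset (σ →₀ ℕ) := (Finset.range (n + 1)).biUnion fun k => (U.coeff k).support with hT
  have hTs : ∀ k ∈ Finset.range (n + 1), (U.coeff k).support ⊆ T := fun k hk =>
    Finset.subset_biUnion_of_mem (fun k => (U.coeff k).support) hk
  -- the polynomial over `F`
  let V : (MvPolynomial σ F)[X] := ∑ k ∈ Finset.range (n + 1),
    C (∑ m ∈ T, MvPolynomial.monomial m (lam ((U.coeff k).coeff m))) * X ^ k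
  let e : (σ →₀ ℕ) → ℕ → E := fun m k => (m.prod fun i l => t i ^ l) * θ ^ k
  have hsum : ∑ x : ((Finset.range (n + 1)) ×ˢ T : Finset (ℕ × (σ →₀ ℕ))),
      ι ((U.coeff x.1.1).coeff x.1.2) * algebraMap E M (e x.1.2 x.1.1) = 0 := by
    rw [Finset.sum_coe_sort ((Finset.range (n + 1)) ×ˢ T)
      (fun x : ℕ × (σ →₀ ℕ) => ι ((U.coeff x.1).coeff x.2) * algebraMap E M (e x.2 x.1)),
      Finset.sum_product, ← h, eval₂_eq_sum_range]
    refine Finset.sum_congr rfl fun k hk => ?_
    have h1 : (MvPolynomial.eval₂Hom ι.toRingHom fun i => algebraMap E M (t i)) (U.coeff k) =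
        ∑ m ∈ T, ι ((U.coeff k).coeff m) * m.prod fun i l => algebraMap E M (t i) ^ l := by
      rw [MvPolynomial.coe_eval₂Hom, MvPolynomial.eval₂_eq]
      refine Finset.sum_subset (hTs k hk) fun m _ hm => ?_
      rw [MvPolynomial.notMem_support_iff.1 hm]
      simp
    rw [h1, Finset.sum_mul]
    refine Finset.sum_congr rfl fun m _ => ?_
    simp only [e]
    rw [map_mul, map_pow, map_finsuppProd]
    simp only [map_pow]
    ring
  have h2 := ld halg ι lam _ _ hsum
  rw [Finset.sum_coe_sort ((Finset.range (n + 1)) ×ˢ T)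
      (fun x : ℕ × (σ →₀ ℕ) => lam ((U.coeff x.1).coeff x.2) • e x.2 x.1),
      Finset.sum_product] at h2
  have hV0 : V.eval₂ (MvPolynomial.aeval t : MvPolynomial σ F →ₐ[F] E).toRingHom θ = 0 := by
    rw [← h2]
    simp only [V]
    rw [eval₂_finsetSum]
    refine Finset.sum_congr rfl fun k _ => ?_
    rw [eval₂_mul, eval₂_C, eval₂_pow, eval₂_X, map_sum, Finset.sum_mul]
    refine Finset.sum_congr rfl fun m _ => ?_
    have h3 : (MvPolynomial.aeval t : MvPolynomial σ F →ₐ[F] E).toRingHom
        (MvPolynomial.monomial m (lam ((U.coeff k).coeff m))) =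
        algebraMap F E (lam ((U.coeff k).coeff m)) * m.prod fun i l => t i ^ l :=
      MvPolynomial.aeval_monomial _ _ _
    rw [h3, Algebra.smul_def]
    simp only [e]
    ring
  have hGV : G ∣ V := (hdvd V).1 hV0
  have hVn : V.coeff n = 1 := by
    have h0 : (0 : σ →₀ ℕ) ∈ T := by
      refine hTs n (Finset.self_mem_range_succ n) ?_
      rw [hn, hU.coeff_natDegree]
      simp
    simp only [V, finsetSum_coeff, coeff_C_mul, coeff_X_pow]
    rw [Finset.sum_eq_single n (fun k _ hk => by rw [if_neg (Ne.symm hk), mul_zero])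
      (fun h => absurd (Finset.self_mem_range_succ n) h), if_pos rfl, mul_one]
    have h3 : U.coeff n = 1 := hU.coeff_natDegree
    rw [h3, Finset.sum_eq_single 0]
    · rw [MvPolynomial.coeff_one, if_pos rfl, hlam]
      rfl
    · intro m _ hm
      rw [MvPolynomial.coeff_one, if_neg (Ne.symm hm), map_zero, map_zero]
    · exact fun h => absurd h0 h
  have hV1 : V ≠ 0 := fun h => by
    rw [h, coeff_zero] at hVn
    exact zero_ne_one hVn
  have hVd : V.natDegree ≤ n := by
    refine natDegree_sum_le_of_forall_le _ _ fun k hk => ?_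
    refine (natDegree_C_mul_X_pow_le _ _).trans ?_
    exact Nat.lt_succ_iff.1 (Finset.mem_range.1 hk)
  exact (natDegree_le_of_dvd hGV hV1).trans hVd

/-- **Absolute irreducibility.** -/
theorem abs_irreducible (halg : ∀ a : E, IsAlgebraic F a → a ∈ (algebraMap F E).range)
    {σ : Type u} (t : σ → E) (θ : E) (G : (MvPolynomial σ F)[X]) (hG : G.Monic)
    (hdvd : ∀ Q : (MvPolynomial σ F)[X],
      Q.eval₂ (MvPolynomial.aeval t : MvPolynomial σ F →ₐ[F] E).toRingHom θ = 0 ↔ G ∣ Q) :
    Irreducible (G.map (MvPolynomial.map (algebraMap F (AlgebraicClosure F)))) := by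
  let M := AlgebraicClosure E
  let ι : AlgebraicClosure F →ₐ[F] M := IsAlgClosed.lift
  have hGm : (G.map (MvPolynomial.map (algebraMap F (AlgebraicClosure F)))).Monic := hG.map _
  have hroot : (G.map (MvPolynomial.map (algebraMap F (AlgebraicClosure F)))).eval₂
      (MvPolynomial.eval₂Hom ι.toRingHom fun i => algebraMap E M (t i))
      (algebraMap E M θ) = 0 := by
    have h1 : (MvPolynomial.eval₂Hom ι.toRingHom fun i => algebraMap E M (t i)).comp
        (MvPolynomial.map (algebraMap F (AlgebraicClosure F))) =
        (algebraMap E M).comp (MvPolynomial.aeval t : MvPolynomial σ F →ₐ[F] E).toRingHom := by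
      apply MvPolynomial.ringHom_ext
      · intro r
        have h2 : ι (algebraMap F (AlgebraicClosure F) r) = algebraMap F M r := ι.commutes r
        simp only [RingHom.comp_apply, MvPolynomial.map_C, MvPolynomial.coe_eval₂Hom,
          MvPolynomial.eval₂_C]
        change ι (algebraMap F (AlgebraicClosure F) r) =
          algebraMap E M (MvPolynomial.aeval t (MvPolynomial.C r))
        rw [h2, MvPolynomial.aeval_C, ← IsScalarTower.algebraMap_apply]
      · intro i
        simp only [RingHom.comp_apply, MvPolynomial.map_X, MvPolynomial.coe_eval₂Hom,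
          MvPolynomial.eval₂_X]
        change algebraMap E M (t i) = algebraMap E M (MvPolynomial.aeval t (MvPolynomial.X i))
        rw [MvPolynomial.aeval_X]
    rw [eval₂_map, h1, ← hom_eval₂, (hdvd G).2 dvd_rfl, map_zero]
  rw [hGm.irreducible_iff_natDegree]
  refine ⟨fun h => ?_, fun U V hU hV hUV => ?_⟩
  · rw [h, eval₂_one] at hroot
    exact one_ne_zero hroot
  · have hdeg : U.natDegree + V.natDegree = G.natDegree := by
      rw [← hU.natDegree_mul hV, hUV, hG.natDegree_map]
    rw [← hUV, eval₂_mul] at hroot
    rcases mul_eq_zero.1 hroot with h | h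
    · have h1 := natDegree_le_of_root halg t θ G hdvd ι U hU h
      right
      omega
    · have h1 := natDegree_le_of_root halg t θ G hdvd ι V hV h
      left
      omega

end abs

end BD
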