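import Pool.Agent.Helper71.BD.Roots

/-!
# The theorem of Bertini for polynomials (Helper71, row A2 of PROJECT BD)

`BD.bertini` : let `G ∈ F[t_1, …, t_e][Y]` be monic and separable in `Y` and irreducible over the
algebraically closed field `Ω ⊇ F`, `F` infinite.  Then there is a line `t = a + b T` over `F` such
that `G (a + b T, Y)` is irreducible over `Ω` and separable; moreover the line can be chosen outside
of a given hypersurface.

The roots `Y_ρ` of `G (a + b T, Y)` in `Ω[b][[T]]` exist by Hensel's lemma if `G (a, Y)` has no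
multiple root.  For a proper subset `S` of the roots `∏_S (Y - Y_ρ)` is not a polynomial in `T` of
degree at most `M`, otherwise `T = 1` would give a factorisation of `G (a + b, Y)`.
-/

set_option autoImplicit false

open Polynomial Polynomial.Bivariate

namespace BD

theorem coeff_swap {R : Type*} [CommRing R] (p : R[X][Y]) (j k : ℕ) :
    ((Bivariate.swap p).coeff j).coeff k = (p.coeff k).coeff j := by
  induction p using Polynomial.induction_on' with
  | add p q hp hq => simp only [map_add, coeff_add, hp, hq]
  | monomial n a =>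
    induction a using Polynomial.induction_on' with
    | add a b ha hb => simp only [map_add, coeff_add, ha, hb]
    | monomial m r =>
      rw [Bivariate.swap_monomial_monomial]
      simp only [coeff_monomial]
      split_ifs <;> simp [coeff_monomial, *]

/-- Degrees with respect to the variable of the coefficients. -/
theorem coeff_eq_zero_of_mul {R : Type*} [CommRing R] [IsDomain R] {U V H : R[X][Y]}
    (hUV : U * V = H) (hH : H ≠ 0) {M : ℕ} (hM : ∀ k j, M < j → (H.coeff k).coeff j = 0)
    (k j : ℕ) (hj : M < j) : (U.coeff k).coeff j = 0 := by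
  have h1 : Bivariate.swap U * Bivariate.swap V = Bivariate.swap H := by rw [← map_mul, hUV]
  have hH' : Bivariate.swap H ≠ 0 := (map_ne_zero_iff _ (AlgEquiv.injective _)).2 hH
  rw [← h1] at hH'
  have h2 : (Bivariate.swap H).natDegree ≤ M := by
    rw [natDegree_le_iff_coeff_eq_zero]
    intro i hi
    ext l
    rw [coeff_swap, hM l i hi, coeff_zero]
  rw [← h1, natDegree_mul (left_ne_zero_of_mul hH') (right_ne_zero_of_mul hH')] at h2
  have h3 : (Bivariate.swap U).coeff j = 0 := coeff_eq_zero_of_natDegree_lt (by omega)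
  rw [← coeff_swap, h3, coeff_zero]

section maps

variable {F Ω : Type*} [Field F] [Field Ω] [Algebra F Ω] {σ : Type*}

/-- The restriction to the line `a + b T`. -/
noncomputable def lin (a b : σ → F) : MvPolynomial σ F →ₐ[F] F[X] :=
  MvPolynomial.aeval fun i => C (a i) + C (b i) * X

/-- The restriction to the generic line through `a`. -/
noncomputable def pol (Ω : Type*) [Field Ω] [Algebra F Ω] (a : σ → F) :
    MvPolynomial σ F →+* (MvPolynomial σ Ω)[X] :=
  MvPolynomial.eval₂Hom (C.comp (MvPolynomial.C.comp (algebraMap F Ω)))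
    fun i => C (MvPolynomial.C (algebraMap F Ω (a i))) + C (MvPolynomial.X i) * X

/-- The translation by `a`. -/
noncomputable def trans (Ω : Type*) [Field Ω] [Algebra F Ω] (a : σ → F) :
    MvPolynomial σ Ω →+* MvPolynomial σ Ω :=
  (MvPolynomial.aeval fun i => MvPolynomial.C (algebraMap F Ω (a i)) + MvPolynomial.X i :
    MvPolynomial σ Ω →ₐ[Ω] MvPolynomial σ Ω).toRingHom

theorem trans_neg (a : σ → F) : (trans Ω (-a)).comp (trans Ω a) = RingHom.id _ := by
  apply MvPolynomial.ringHom_ext
  · intro r
    simp [trans]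
  · intro i
    simp [trans]

theorem pol_one (a : σ → F) :
    (evalRingHom 1).comp (pol Ω a) = (trans Ω a).comp (MvPolynomial.map (algebraMap F Ω)) := by
  apply MvPolynomial.ringHom_ext
  · intro r
    simp [trans, pol]
  · intro i
    simp [trans, pol]

theorem pol_zero (a : σ → F) : (evalRingHom 0).comp (pol Ω a) =
    (MvPolynomial.C.comp (algebraMap F Ω)).comp (MvPolynomial.eval a) := by
  apply MvPolynomial.ringHom_ext
  · intro r
    simp [pol]
  · intro i
    simp [pol]

theorem pol_spec (a b : σ → F) :
    (mapRingHom (MvPolynomial.eval fun i => algebraMap F Ω (b i))).comp (pol Ω a) =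
      (mapRingHom (algebraMap F Ω)).comp (lin a b).toRingHom := by
  apply MvPolynomial.ringHom_ext
  · intro r
    simp [lin, pol]
  · intro i
    simp [lin, pol]

theorem lin_zero (a b : σ → F) (p : MvPolynomial σ F) :
    (lin a b p).eval 0 = MvPolynomial.eval a p := by
  have h : (evalRingHom 0).comp (lin a b).toRingHom = MvPolynomial.eval a := by
    apply MvPolynomial.ringHom_ext
    · intro r
      simp [lin]
    · intro i
      simp [lin]
  exact congrArg (fun f : MvPolynomial σ F →+* F => f p) h

theorem lin_natDegree_le (a b : σ → F) (p : MvPolynomial σ F) :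
    (lin a b p).natDegree ≤ p.totalDegree := by
  have := MvPolynomial.aeval_natDegree_le (n := 1) p le_rfl
    (fun i => C (a i) + C (b i) * X) (fun i => by
      refine (natDegree_add_le _ _).trans ?_
      rw [natDegree_C, max_le_iff]
      exact ⟨by omega, (natDegree_C_mul_le _ _).trans natDegree_X_le⟩)
  rwa [mul_one] at this

end maps

section hensel

variable {F Ω : Type*} [Field F] [Field Ω] [Algebra F Ω] {σ : Type*}

/-- The map to the power series over the ring of parameters of the lines. -/
noncomputable def ser (Ω : Type*) [Field Ω] [Algebra F Ω] (a : σ → F) :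
    MvPolynomial σ F →+* PowerSeries (MvPolynomial σ Ω) :=
  (Polynomial.coeToPowerSeries.ringHom).comp (pol Ω a)

theorem ser_zero (a : σ → F) :
    (PowerSeries.constantCoeff (R := MvPolynomial σ Ω)).comp (ser Ω a) =
      (MvPolynomial.C.comp (algebraMap F Ω)).comp (MvPolynomial.eval a) := by
  rw [← pol_zero]
  ext p
  · simp [ser, coeff_zero_eq_eval_zero]
  · simp [ser, coeff_zero_eq_eval_zero]

/-- Hensel's lemma. -/
theorem exists_root_lift (G : (MvPolynomial σ F)[X]) (hG : G.Monic) (a : σ → F) {x : Ω}
    (h : ((G.map (MvPolynomial.eval a)).map (algebraMap F Ω)).eval x = 0)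
    (h' : (derivative ((G.map (MvPolynomial.eval a)).map (algebraMap F Ω))).eval x ≠ 0) :
    ∃ y : PowerSeries (MvPolynomial σ Ω), (G.map (ser Ω a)).eval y = 0 ∧
      PowerSeries.constantCoeff y = MvPolynomial.C x := by
  have key : ∀ Q : (MvPolynomial σ F)[X], PowerSeries.constantCoeff
      ((Q.map (ser Ω a)).eval (PowerSeries.C (MvPolynomial.C x))) =
      MvPolynomial.C (((Q.map (MvPolynomial.eval a)).map (algebraMap F Ω)).eval x) := by
    intro Q
    rw [← eval_map_apply, map_map, ser_zero]
    rw [PowerSeries.constantCoeff_C, ← map_map, ← map_map, eval_map_apply]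
  have hmon : (G.map (ser Ω a)).Monic := hG.map _
  obtain ⟨y, hy, hy2⟩ := HenselianRing.is_henselian
    (I := Ideal.span {(PowerSeries.X : PowerSeries (MvPolynomial σ Ω))}) (G.map (ser Ω a)) hmon
    (PowerSeries.C (MvPolynomial.C x)) (by
      rw [Ideal.mem_span_singleton, PowerSeries.X_dvd_iff, key, h, map_zero]) (by
      apply IsUnit.map
      rw [derivative_map, PowerSeries.isUnit_iff_constantCoeff, key, ← derivative_map,
        ← derivative_map]
      exact (isUnit_iff_ne_zero.2 h').map _)
  refine ⟨y, hy, ?_⟩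
  rw [Ideal.mem_span_singleton, PowerSeries.X_dvd_iff, map_sub, PowerSeries.constantCoeff_C,
    sub_eq_zero] at hy2
  exact hy2

end hensel

section main

variable {F Ω : Type*} [Field F] [Field Ω] [Algebra F Ω] {σ : Type*}

/-- A proper partial product of the roots is not a polynomial. -/
theorem exists_coeff_ne_zero (G : (MvPolynomial σ F)[X]) (hG : G.Monic)
    (hirr : Irreducible (G.map (MvPolynomial.map (algebraMap F Ω)))) (a : σ → F)
    (s : Finset Ω) (hs : G.natDegree ≤ s.card)
    (y : Ω → PowerSeries (MvPolynomial σ Ω)) (hy : Set.InjOn y s)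
    (hroot : ∀ x ∈ s, (G.map (ser Ω a)).eval (y x) = 0)
    {t : Finset Ω} (hts : t ⊆ s) (ht0 : t.Nonempty) (hts' : t ≠ s) (M : ℕ) :
    ∃ k j, M < j ∧ PowerSeries.coeff j ((∏ x ∈ t, (X - C (y x))).coeff k) ≠ 0 := by
  classical
  by_contra hcon
  push Not at hcon
  set P := ∏ x ∈ t, (X - C (y x)) with hP
  have hPm : P.Monic := monic_prod_X_sub_C _ _
  have hPd : P.natDegree = t.card := natDegree_finsetProd_X_sub_C_eq_card t y
  have hlift : P ∈ lifts (Polynomial.coeToPowerSeries.ringHom (R := MvPolynomial σ Ω)) := by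
    rw [lifts_iff_coeff_lifts]
    intro k
    refine ⟨PowerSeries.trunc (M + 1) (P.coeff k), ?_⟩
    ext1 j
    rw [Polynomial.coeToPowerSeries.ringHom_apply, Polynomial.coeff_coe, PowerSeries.coeff_trunc]
    split_ifs with h
    · rfl
    · exact (hcon k j (by omega)).symm
  obtain ⟨U, hU, hUd, hUm⟩ := lifts_and_natDegree_eq_and_monic hlift hPm
  have hHm : (G.map (ser Ω a)).Monic := hG.map _
  have hH : G.map (ser Ω a) = ∏ x ∈ s, (X - C (y x)) :=
    eq_prod_of_roots hHm s y hy hroot (by rw [hG.natDegree_map]; exact hs)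
  have hdvd : P ∣ G.map (ser Ω a) := by
    rw [hH]
    exact Finset.prod_dvd_prod_of_subset _ _ _ hts
  have hdvd' : U ∣ G.map (pol Ω a) := by
    rw [← modByMonic_eq_zero_iff_dvd hUm]
    have h1 := map_modByMonic (Polynomial.coeToPowerSeries.ringHom (R := MvPolynomial σ Ω))
      (p := G.map (pol Ω a)) hUm
    rw [hU, map_map] at h1
    have h2 : G.map ((Polynomial.coeToPowerSeries.ringHom (R := MvPolynomial σ Ω)).comp
        (pol Ω a)) %ₘ P = 0 := (modByMonic_eq_zero_iff_dvd hPm).2 hdvd
    rw [h2] at h1
    exact (Polynomial.map_eq_zero_iff (fun p q h => Polynomial.coe_injective _ h)).1 h1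
  obtain ⟨V, hV⟩ := hdvd'
  have hVm : V.Monic := hUm.of_mul_monic_left (hV ▸ hG.map _)
  have hG2 : G.map (MvPolynomial.map (algebraMap F Ω)) =
      ((U.map (evalRingHom 1)).map (trans Ω (-a))) * ((V.map (evalRingHom 1)).map
        (trans Ω (-a))) := by
    rw [← Polynomial.map_mul, ← Polynomial.map_mul, ← hV, map_map, map_map,
      RingHom.comp_assoc, pol_one, ← RingHom.comp_assoc, trans_neg, RingHom.id_comp]
  have hUc : U.natDegree = t.card := hUd.trans hPd
  have hsc : s.card = G.natDegree := by
    have h1 := congrArg natDegree hH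
    rw [hG.natDegree_map, natDegree_finsetProd_X_sub_C_eq_card] at h1
    exact h1.symm
  have hUV : U.natDegree + V.natDegree = s.card := by
    rw [hsc, ← hUm.natDegree_mul hVm, ← hV, hG.natDegree_map]
  have hlt : t.card < s.card := Finset.card_lt_card (hts.ssubset_of_ne hts')
  have htpos : 0 < t.card := ht0.card_pos
  rcases hirr.isUnit_or_isUnit hG2 with h | h
  · have h1 := (((hUm.map (evalRingHom 1)).map (trans Ω (-a)))).eq_one_of_isUnit h
    have h2 := congrArg natDegree h1
    rw [(hUm.map _).natDegree_map, hUm.natDegree_map, natDegree_one] at h2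
    omega
  · have h1 := (((hVm.map (evalRingHom 1)).map (trans Ω (-a)))).eq_one_of_isUnit h
    have h2 := congrArg natDegree h1
    rw [(hVm.map _).natDegree_map, hVm.natDegree_map, natDegree_one] at h2
    omega

/-- **The theorem of Bertini.** -/
theorem bertini [Infinite F] [IsAlgClosed Ω] (G : (MvPolynomial σ F)[X]) (hG : G.Monic)
    (hirr : Irreducible (G.map (MvPolynomial.map (algebraMap F Ω))))
    {r : MvPolynomial σ F} (hr : r ≠ 0) {u v : (MvPolynomial σ F)[X]}
    (huv : u * G + v * derivative G = C r) {D : MvPolynomial σ F} (hD : D ≠ 0) :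
    ∃ a b : σ → F, lin a b D ≠ 0 ∧ lin a b r ≠ 0 ∧
      Irreducible ((G.map (lin a b).toRingHom).map (mapRingHom (algebraMap F Ω))) := by
  classical
  obtain ⟨a, ha⟩ : ∃ a, MvPolynomial.eval a (r * D) ≠ 0 := by
    by_contra hcon
    push Not at hcon
    exact mul_ne_zero hr hD (MvPolynomial.funext fun x => by rw [hcon x, map_zero])
  rw [map_mul] at ha
  have har : MvPolynomial.eval a r ≠ 0 := left_ne_zero_of_mul ha
  have haD : MvPolynomial.eval a D ≠ 0 := right_ne_zero_of_mul ha
  set Ga : Polynomial Ω := (G.map (MvPolynomial.eval a)).map (algebraMap F Ω) with hGa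
  have hGam : Ga.Monic := (hG.map _).map _
  have hsep : Ga.Separable := by
    refine Separable.map ?_
    have h1 := congrArg (Polynomial.map (MvPolynomial.eval a)) huv
    rw [Polynomial.map_add, Polynomial.map_mul, Polynomial.map_mul, map_C, ← derivative_map] at h1
    refine ⟨C (MvPolynomial.eval a r)⁻¹ * u.map (MvPolynomial.eval a),
      C (MvPolynomial.eval a r)⁻¹ * v.map (MvPolynomial.eval a), ?_⟩
    rw [mul_assoc, mul_assoc, ← mul_add, h1, ← C_mul, inv_mul_cancel₀ har, C_1]
  set s : Finset Ω := Ga.roots.toFinset with hs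
  have hcard : s.card = G.natDegree := by
    rw [hs, Multiset.toFinset_card_of_nodup (nodup_roots hsep),
      (splits_iff_card_roots.1 (IsAlgClosed.splits Ga)), hGa, (hG.map _).natDegree_map,
      hG.natDegree_map]
  have hsroot : ∀ x ∈ s, Ga.eval x = 0 := fun x hx =>
    (mem_roots hGam.ne_zero).1 (Multiset.mem_toFinset.1 hx)
  have hex : ∀ x : Ω, ∃ y : PowerSeries (MvPolynomial σ Ω), x ∈ s →
      (G.map (ser Ω a)).eval y = 0 ∧ PowerSeries.constantCoeff y = MvPolynomial.C x := by
    intro x
    by_cases hx : x ∈ s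
    · obtain ⟨y, hy⟩ := exists_root_lift G hG a (hsroot x hx) (by
        obtain ⟨p, q, hpq⟩ := hsep
        intro h0
        have h1 := congrArg (eval x) hpq
        rw [eval_add, eval_mul, eval_mul, h0, hsroot x hx] at h1
        simp at h1)
      exact ⟨y, fun _ => hy⟩
    · exact ⟨0, fun h => absurd h hx⟩
  choose y hy using hex
  have hyinj : Set.InjOn y s := by
    intro x hx x' hx' h
    have h1 := (hy x hx).2
    rw [h, (hy x' hx').2] at h1
    exact (MvPolynomial.C_injective _ _ h1).symm
  -- the degree in the parameter of the line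
  set M : ℕ := G.support.sup fun k => (G.coeff k).totalDegree with hM
  have hMk : ∀ k, (G.coeff k).totalDegree ≤ M := by
    intro k
    by_cases hk : k ∈ G.support
    · exact Finset.le_sup (f := fun k => (G.coeff k).totalDegree) hk
    · rw [notMem_support_iff.1 hk, MvPolynomial.totalDegree_zero]
      exact Nat.zero_le _
  -- the proper subsets
  set T : Finset (Finset Ω) := s.powerset.filter fun t => t.Nonempty ∧ t ≠ s with hT
  have hTmem : ∀ t ∈ T, t ⊆ s ∧ t.Nonempty ∧ t ≠ s := fun t ht => by
    rw [hT, Finset.mem_filter, Finset.mem_powerset] at ht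
    exact ht
  have hex2 : ∀ t : Finset Ω, ∃ k j, t ∈ T → M < j ∧
      PowerSeries.coeff j ((∏ x ∈ t, (X - C (y x))).coeff k) ≠ 0 := by
    intro t
    by_cases ht : t ∈ T
    · obtain ⟨h1, h2, h3⟩ := hTmem t ht
      obtain ⟨k, j, h4⟩ := exists_coeff_ne_zero G hG hirr a s hcard.ge y hyinj
        (fun x hx => (hy x hx).1) h1 h2 h3 M
      exact ⟨k, j, fun _ => h4⟩
    · exact ⟨0, 0, fun h => absurd h ht⟩
  choose k j hkj using hex2
  have hprod : ∏ t ∈ T, PowerSeries.coeff (j t) ((∏ x ∈ t, (X - C (y x))).coeff (k t)) ≠ 0 :=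
    Finset.prod_ne_zero_iff.2 fun t ht => (hkj t ht).2
  obtain ⟨b, hb⟩ : ∃ b : σ → F, MvPolynomial.eval (fun i => algebraMap F Ω (b i))
      (∏ t ∈ T, PowerSeries.coeff (j t) ((∏ x ∈ t, (X - C (y x))).coeff (k t))) ≠ 0 := by
    by_contra hcon
    push Not at hcon
    apply hprod
    refine MvPolynomial.funext_set (fun _ : σ => Set.range (algebraMap F Ω))
      (fun _ => Set.infinite_range_of_injective (algebraMap F Ω).injective) fun x hx => ?_
    choose b hb using fun i => hx i (Set.mem_univ i)
    have h1 : x = fun i => algebraMap F Ω (b i) := funext fun i => (hb i).symm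
    rw [h1, hcon b, map_zero]
  rw [map_prod, Finset.prod_ne_zero_iff] at hb
  refine ⟨a, b, fun h => haD ?_, fun h => har ?_, ?_⟩
  · rw [← lin_zero a b, h, eval_zero]
  · rw [← lin_zero a b, h, eval_zero]
  -- irreducibility
  set H : Polynomial (Polynomial Ω) := (G.map (lin a b).toRingHom).map (mapRingHom (algebraMap F Ω)) with hH
  have hHm : H.Monic := (hG.map _).map _
  have hHd : H.natDegree = G.natDegree := by rw [hH, (hG.map _).natDegree_map, hG.natDegree_map]
  rw [hHm.irreducible_iff_natDegree]
  refine ⟨fun h1 => ?_, fun U V hU hV hUV => ?_⟩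
  · have h2 : G.natDegree = 0 := by rw [← hHd, h1, natDegree_one]
    have h3 : G = 1 := hG.natDegree_eq_zero.1 h2
    rw [h3, Polynomial.map_one] at hirr
    exact hirr.not_isUnit isUnit_one
  have hev : (PowerSeries.map (MvPolynomial.eval fun i => algebraMap F Ω (b i))).comp (ser Ω a) =
      (Polynomial.coeToPowerSeries.ringHom).comp
        ((mapRingHom (algebraMap F Ω)).comp (lin a b).toRingHom) := by
    rw [← pol_spec]
    apply RingHom.ext
    intro p
    simp only [ser, RingHom.comp_apply, coeToPowerSeries.ringHom_apply, coe_mapRingHom]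
    ext n
    simp
  set z : Ω → PowerSeries Ω := fun x =>
    PowerSeries.map (MvPolynomial.eval fun i => algebraMap F Ω (b i)) (y x) with hz
  have hzc : ∀ x ∈ s, PowerSeries.constantCoeff (z x) = x := by
    intro x hx
    have h1 := (hy x hx).2
    rw [hz]
    simp only
    rw [← PowerSeries.coeff_zero_eq_constantCoeff_apply, PowerSeries.coeff_map,
      PowerSeries.coeff_zero_eq_constantCoeff_apply, h1, MvPolynomial.eval_C]
  have hzinj : Set.InjOn z s := by
    intro x hx x' hx' h
    rw [← hzc x hx, ← hzc x' hx', h]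
  have hzroot : ∀ x ∈ s, (H.map (Polynomial.coeToPowerSeries.ringHom)).eval (z x) = 0 := by
    intro x hx
    have h1 := (hy x hx).1
    have h2 := congrArg (PowerSeries.map (MvPolynomial.eval fun i => algebraMap F Ω (b i))) h1
    rw [← eval_map_apply, map_map, hev, map_zero] at h2
    rw [hH, map_map, map_map]
    exact h2
  have hUV' : U.map (Polynomial.coeToPowerSeries.ringHom (R := Ω)) *
      V.map (Polynomial.coeToPowerSeries.ringHom (R := Ω)) =
      H.map (Polynomial.coeToPowerSeries.ringHom) := by
    rw [← Polynomial.map_mul, hUV]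
  obtain ⟨t, hts, hUt, hUd, hVd⟩ := exists_subset_of_mul (hU.map _) (hV.map _) hUV' s z hzinj
    hzroot (by rw [hHm.natDegree_map, hHd, hcard])
  rw [hU.natDegree_map] at hUd
  rw [hV.natDegree_map] at hVd
  by_contra hcon
  push Not at hcon
  have htT : t ∈ T := by
    rw [hT, Finset.mem_filter, Finset.mem_powerset]
    refine ⟨hts, ?_, ?_⟩
    · rw [← Finset.card_pos, ← hUd]
      exact Nat.pos_of_ne_zero hcon.1
    · intro h
      rw [h] at hVd
      exact hcon.2 (by omega)
  have h1 := hb t htT
  apply h1
  obtain ⟨h2, -⟩ := hkj t htT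
  have h3 : (∏ x ∈ t, (X - C (z x)) : (PowerSeries Ω)[X]) = (∏ x ∈ t, (X - C (y x))).map
      (PowerSeries.map (MvPolynomial.eval fun i => algebraMap F Ω (b i))) := by
    rw [Polynomial.map_prod]
    refine Finset.prod_congr rfl fun x _ => ?_
    rw [Polynomial.map_sub, map_X, map_C]
  have h4 := congrArg (fun Q : (PowerSeries Ω)[X] => PowerSeries.coeff (j t) (Q.coeff (k t)))
    (hUt.trans h3)
  simp only [coeff_map, PowerSeries.coeff_map, coeToPowerSeries.ringHom_apply,
    Polynomial.coeff_coe] at h4
  rw [← h4]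
  refine coeff_eq_zero_of_mul hUV hHm.ne_zero (M := M) ?_ _ _ h2
  intro k' j' hj'
  rw [hH, coeff_map, coeff_map, coe_mapRingHom, coeff_map]
  have h5 := lin_natDegree_le a b (G.coeff k')
  have h6 := hMk k'
  have h7 : (lin a b (G.coeff k')).coeff j' = 0 := coeff_eq_zero_of_natDegree_lt (by omega)
  exact (congrArg (algebraMap F Ω) h7).trans (map_zero _)

end main

end BD
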