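import Pool.Agent.Helper71.BD.Hil

/-!
# Divisibility of Hilbert functions (Helper71, row A1 of PROJECT BD)

`BD.hil_dvd_of` : let `I` be a homogeneous ideal such that every point of `V(I)` with homogeneous
coordinates in a finitely generated extension `E` of `F` forces `E` to contain an element of degree
divisible by `l` over `F`. Then `l` divides the dimension of the degree `n` part of `F[x] / I` for
all large `n`.
-/

set_option autoImplicit false

open MvPolynomial Module

namespace BD

universe u

variable {F : Type u} [Field F] {N : ℕ}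

attribute [local instance] MvPolynomial.gradedAlgebra in
theorem hom_iff (I : Ideal (MvPolynomial (Fin N) F)) :
    Hom I ↔ I.IsHomogeneous (homogeneousSubmodule (Fin N) F) := by
  constructor
  · intro h i p hp
    have h1 : ((DirectSum.decompose (homogeneousSubmodule (Fin N) F) p i :
        homogeneousSubmodule (Fin N) F i) : MvPolynomial (Fin N) F) = homogeneousComponent i p :=
      decomposition.decompose'_apply p i
    rw [h1]
    exact h p hp i
  · intro h p hp n
    exact homogeneousComponent_mem_of_mem h hp n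

attribute [local instance] MvPolynomial.gradedAlgebra in
/-- A homogeneous ideal which is not prime contains a product of two forms outside of it. -/
theorem exists_forms {I : Ideal (MvPolynomial (Fin N) F)} (hI : Hom I) (h1 : I ≠ ⊤)
    (h2 : ¬ I.IsPrime) : ∃ (a b : MvPolynomial (Fin N) F) (c d : ℕ), a.IsHomogeneous c ∧
      b.IsHomogeneous d ∧ a ∉ I ∧ b ∉ I ∧ a * b ∈ I := by
  by_contra hcon
  push Not at hcon
  apply h2
  refine Ideal.IsHomogeneous.isPrime_of_homogeneous_mem_or_mem ((hom_iff I).1 hI) h1 ?_
  rintro x y ⟨c, hc⟩ ⟨d, hd⟩ hxy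
  by_contra h3
  push Not at h3
  exact hcon x y c d hc hd h3.1 h3.2 hxy

theorem hil_eq_zero {I : Ideal (MvPolynomial (Fin N) F)} (h : ∀ i, X i ∈ I) {n : ℕ}
    (hn : 0 < n) : hil I n = 0 := by
  have : part I n = homogeneousSubmodule (Fin N) F n := by
    refine le_antisymm (part_le I n) fun p hp => mem_part.2 ⟨?_, hp⟩
    have h1 : p ∈ Ideal.span (X '' (Set.univ : Set (Fin N)) : Set (MvPolynomial (Fin N) F)) := by
      rw [mem_ideal_span_X_image]
      intro m hm
      by_contra hcon
      push Not at hcon
      have h2 : m = 0 := by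
        ext i
        simpa using hcon i (Set.mem_univ _)
      have h3 : p.IsHomogeneous n := hp
      have h4 := h3 (mem_support_iff.1 hm)
      rw [h2, map_zero] at h4
      omega
    refine (Ideal.span_le.2 ?_) h1
    rintro _ ⟨i, -, rfl⟩
    exact h i
  rw [hil, this]
  omega

theorem aeval_div {K L : Type*} [Field K] [Field L] [Algebra K L] {d : ℕ}
    {f : MvPolynomial (Fin N) K} (hf : f.IsHomogeneous d) (c : L) (x : Fin N → L) :
    aeval (fun i => x i / c) f = aeval x f / c ^ d := by
  rw [aeval_def, aeval_def, eval₂_eq', eval₂_eq', Finset.sum_div]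
  refine Finset.sum_congr rfl fun m hm => ?_
  have hd : ∑ i, m i = d := by
    have h := hf (mem_support_iff.1 hm)
    rw [← h, Finsupp.weight_apply, Finsupp.sum_fintype _ _ (fun i => by simp)]
    simp
  have : ∏ i, (x i / c) ^ m i = (∏ i, x i ^ m i) / c ^ d := by
    rw [← hd, ← Finset.prod_pow_eq_pow_sum, ← Finset.prod_div_distrib]
    exact Finset.prod_congr rfl fun i _ => div_pow _ _ _
  rw [this]
  ring

section prime

variable (P : Ideal (MvPolynomial (Fin N) F)) [hPp : P.IsPrime]

/-- The map to the field of fractions. -/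
noncomputable def frac : MvPolynomial (Fin N) F →ₐ[F] FractionRing (MvPolynomial (Fin N) F ⧸ P) :=
  (IsScalarTower.toAlgHom F (MvPolynomial (Fin N) F ⧸ P)
    (FractionRing (MvPolynomial (Fin N) F ⧸ P))).comp (Ideal.Quotient.mkₐ F P)

omit hPp in
theorem frac_eq_zero {p : MvPolynomial (Fin N) F} : frac P p = 0 ↔ p ∈ P := by
  have h1 : frac P p = algebraMap (MvPolynomial (Fin N) F ⧸ P)
    (FractionRing (MvPolynomial (Fin N) F ⧸ P)) (Ideal.Quotient.mk P p) := rfl
  rw [h1, map_eq_zero_iff _ (IsFractionRing.injective _ _), Ideal.Quotient.eq_zero_iff_mem]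

omit hPp in
theorem aeval_frac (p : MvPolynomial (Fin N) F) : aeval (fun i => frac P (X i)) p = frac P p := by
  have : aeval (fun i => frac P (X i)) = frac P := by
    ext i
    simp
  rw [this]

/-- The dimension of the degree `n` part of an ideal containing the prime ideal `P`. -/
theorem finrank_part_eq {J : Ideal (MvPolynomial (Fin N) F)} (hPJ : P ≤ J) (n : ℕ) :
    finrank F (part J n) = finrank F ((part J n).map (frac P).toLinearMap) +
      finrank F (part P n) := by
  have h1 := LinearMap.finrank_range_add_finrank_ker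
    ((frac P).toLinearMap.domRestrict (part J n))
  rw [LinearMap.range_domRestrict] at h1
  rw [← h1]
  congr 1
  have h2 : part P n = (LinearMap.ker ((frac P).toLinearMap.domRestrict (part J n))).map
      (part J n).subtype := by
    ext p
    constructor
    · intro hp
      refine ⟨⟨p, part_mono hPJ n hp⟩, ?_, rfl⟩
      exact (frac_eq_zero P).2 (mem_part.1 hp).1
    · rintro ⟨⟨q, hq⟩, hq2, rfl⟩
      exact mem_part.2 ⟨(frac_eq_zero P).1 hq2, (mem_part.1 hq).2⟩
  rw [h2, Submodule.finrank_map_subtype_eq]

/-- A finite dimensional space stable under the multiplication by an algebraic element. -/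
theorem dvd_finrank {Q : Type u} [Field Q] [Algebra F Q] {a : Q} (ha : IsAlgebraic F a)
    (V : Submodule F Q) (hV : ∀ v ∈ V, a * v ∈ V) :
    (minpoly F a).natDegree ∣ finrank F V := by
  let W : Submodule (IntermediateField.adjoin F {a}) Q :=
    { V with
      smul_mem' := by
        rintro ⟨c, hc⟩ v hv
        have hc' : c ∈ Algebra.adjoin F {a} := by
          rw [← IntermediateField.adjoin_simple_toSubalgebra_of_isAlgebraic ha]
          exact hc
        have key : ∀ w ∈ V, c * w ∈ V := by
          clear hv hc
          induction hc' using Algebra.adjoin_induction with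
          | mem x hx =>
            rw [Set.mem_singleton_iff] at hx
            subst hx
            exact hV
          | algebraMap r =>
            intro w hw
            rw [← Algebra.smul_def]
            exact V.smul_mem r hw
          | add x y _ _ h1 h2 =>
            intro w hw
            rw [add_mul]
            exact V.add_mem (h1 w hw) (h2 w hw)
          | mul x y _ _ h1 h2 =>
            intro w hw
            rw [mul_assoc]
            exact h1 _ (h2 w hw)
        exact key v hv }
  have h1 : finrank F W = finrank F V := rfl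
  rw [← h1, ← Module.finrank_mul_finrank F (IntermediateField.adjoin F {a}) W,
    IntermediateField.adjoin.finrank ha.isIntegral]
  exact dvd_mul_right _ _

/-- The elements of the field generated by the quotients of the coordinates are quotients of forms
of the same degree. -/
theorem exists_quot {j : Fin N} (hj : (X j : MvPolynomial (Fin N) F) ∉ P)
    {z : FractionRing (MvPolynomial (Fin N) F ⧸ P)}
    (hz : z ∈ IntermediateField.adjoin F (Set.range fun i => frac P (X i) / frac P (X j))) :
    ∃ (c : ℕ) (a b : MvPolynomial (Fin N) F), a.IsHomogeneous c ∧ b.IsHomogeneous c ∧ b ∉ P ∧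
      z = frac P a / frac P b := by
  have h1 : (1 : MvPolynomial (Fin N) F) ∉ P := fun h => hPp.ne_top ((Ideal.eq_top_iff_one P).2 h)
  have h0 : ∀ {b : MvPolynomial (Fin N) F}, b ∉ P → frac P b ≠ 0 := fun hb h =>
    hb ((frac_eq_zero P).1 h)
  induction hz using IntermediateField.adjoin_induction with
  | mem x hx =>
    obtain ⟨i, rfl⟩ := hx
    exact ⟨1, X i, X j, isHomogeneous_X _ _, isHomogeneous_X _ _, hj, rfl⟩
  | algebraMap x =>
    refine ⟨0, C x, 1, isHomogeneous_C _ _, isHomogeneous_one _ _, h1, ?_⟩
    rw [map_one, div_one]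
    exact ((frac P).commutes x).symm
  | add x y _ _ hx hy =>
    obtain ⟨c, a, b, ha, hb, hbP, rfl⟩ := hx
    obtain ⟨c', a', b', ha', hb', hbP', rfl⟩ := hy
    refine ⟨c + c', a * b' + a' * b, b * b', (ha.mul hb').add (add_comm c' c ▸ ha'.mul hb),
      hb.mul hb', fun h => (hPp.mem_or_mem h).elim hbP hbP', ?_⟩
    rw [map_add, map_mul, map_mul, map_mul]
    field_simp [h0 hbP, h0 hbP']
  | inv x _ hx =>
    obtain ⟨c, a, b, ha, hb, hbP, rfl⟩ := hx
    by_cases haP : a ∈ P
    · refine ⟨0, 0, 1, isHomogeneous_zero _ _ _, isHomogeneous_one _ _, h1, ?_⟩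
      rw [(frac_eq_zero P).2 haP]
      simp
    · exact ⟨c, b, a, hb, ha, haP, inv_div _ _⟩
  | mul x y _ _ hx hy =>
    obtain ⟨c, a, b, ha, hb, hbP, rfl⟩ := hx
    obtain ⟨c', a', b', ha', hb', hbP', rfl⟩ := hy
    refine ⟨c + c', a * a', b * b', ha.mul ha', hb.mul hb',
      fun h => (hPp.mem_or_mem h).elim hbP hbP', ?_⟩
    rw [map_mul, map_mul, div_mul_div_comm]

/-- The larger ideal made from an algebraic element of degree zero. -/
theorem exists_larger (hP : Hom P) {z : FractionRing (MvPolynomial (Fin N) F ⧸ P)}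
    (hz : IsAlgebraic F z) {c : ℕ} {a b : MvPolynomial (Fin N) F} (ha : a.IsHomogeneous c)
    (hb : b.IsHomogeneous c) (hbP : b ∉ P) (hzab : z = frac P a / frac P b) :
    ∃ J : Ideal (MvPolynomial (Fin N) F), Hom J ∧ P < J ∧
      ∀ n, (minpoly F z).natDegree ∣ finrank F ((part J n).map (frac P).toLinearMap) := by
  have hb0 : frac P b ≠ 0 := fun h => hbP ((frac_eq_zero P).1 h)
  set m := (minpoly F z).natDegree with hm
  have hm0 : 0 < m := minpoly.natDegree_pos hz.isIntegral
  let g : ℕ → MvPolynomial (Fin N) F := fun i => a ^ i * b ^ (m - 1 - i)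
  have hg : ∀ i < m, frac P (g i) = z ^ i * frac P b ^ (m - 1) := by
    intro i hi
    have h1 : frac P b ^ (m - 1) = frac P b ^ i * frac P b ^ (m - 1 - i) := by
      rw [← pow_add]
      congr 1
      omega
    rw [h1, hzab, div_pow]
    simp only [g, map_mul, map_pow]
    field_simp
  have hgh : ∀ i, ∃ e, (g i).IsHomogeneous e := fun i => ⟨_, (ha.pow i).mul (hb.pow _)⟩
  let J : Ideal (MvPolynomial (Fin N) F) := P ⊔ Ideal.span (g '' {i | i < m})
  have hJg : ∀ i < m, g i ∈ J := fun i hi =>
    Ideal.mem_sup_right (Ideal.subset_span ⟨i, hi, rfl⟩)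
  have hJ : Hom J := hP.sup (hom_span _ (by rintro _ ⟨i, -, rfl⟩; exact hgh i))
  have hstab : ∀ k ∈ J, ∃ k' ∈ J, frac P k' = z * frac P k := by
    intro k hk
    obtain ⟨p, hp, s, hs, rfl⟩ := Submodule.mem_sup.1 hk
    rw [map_add, (frac_eq_zero P).2 hp, zero_add]
    clear hk
    induction hs using Submodule.span_induction with
    | mem x hx =>
      obtain ⟨i, hi, rfl⟩ := hx
      have hi' : i < m := hi
      by_cases h : i + 1 < m
      · refine ⟨g (i + 1), hJg _ h, ?_⟩
        rw [hg _ h, hg _ hi']
        ring
      · have him : i + 1 = m := by omega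
        refine ⟨-∑ t ∈ Finset.range m, C ((minpoly F z).coeff t) * g t, ?_, ?_⟩
        · exact neg_mem (Ideal.sum_mem _ fun t ht => Ideal.mul_mem_left _ _
            (hJg t (Finset.mem_range.1 ht)))
        · have h1 := minpoly.aeval F z
          rw [Polynomial.aeval_eq_sum_range, Finset.sum_range_succ, ← hm] at h1
          have h2 : (minpoly F z).coeff m = 1 := (minpoly.monic hz.isIntegral).coeff_natDegree
          rw [h2, one_smul] at h1
          rw [hg _ hi', ← mul_assoc, ← pow_succ', him, map_neg, map_sum]
          have h3 : ∑ t ∈ Finset.range m, frac P (C ((minpoly F z).coeff t) * g t) =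
              (∑ t ∈ Finset.range m, (minpoly F z).coeff t • z ^ t) * frac P b ^ (m - 1) := by
            rw [Finset.sum_mul]
            refine Finset.sum_congr rfl fun t ht => ?_
            rw [map_mul, hg t (Finset.mem_range.1 ht), Algebra.smul_def, mul_assoc]
            congr 1
          rw [h3]
          linear_combination (-frac P b ^ (m - 1)) * h1
    | zero => exact ⟨0, Ideal.zero_mem _, by rw [map_zero, mul_zero]⟩
    | add x y _ _ hx hy =>
      obtain ⟨x', hx', hx2⟩ := hx
      obtain ⟨y', hy', hy2⟩ := hy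
      exact ⟨x' + y', Ideal.add_mem _ hx' hy', by rw [map_add, map_add, hx2, hy2, mul_add]⟩
    | smul r x _ hx =>
      obtain ⟨x', hx', hx2⟩ := hx
      refine ⟨r * x', Ideal.mul_mem_left _ _ hx', ?_⟩
      rw [smul_eq_mul, map_mul, map_mul, hx2]
      ring
  refine ⟨J, hJ, lt_of_le_of_ne le_sup_left ?_, fun n => dvd_finrank hz _ ?_⟩
  · intro h
    have h1 : g 0 ∈ P := by
      rw [h]
      exact hJg 0 hm0
    have h2 : frac P (g 0) = 0 := (frac_eq_zero P).2 h1
    rw [hg 0 hm0] at h2
    simp [hb0] at h2
  · rintro _ ⟨k, hk, rfl⟩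
    obtain ⟨hkJ, hkn⟩ := mem_part.1 hk
    obtain ⟨k', hk', h1⟩ := hstab k hkJ
    refine ⟨homogeneousComponent n k', mem_part.2 ⟨hJ k' hk' n,
      homogeneousComponent_isHomogeneous _ _⟩, ?_⟩
    have h2 : b * k' - a * k ∈ P := by
      rw [← frac_eq_zero P, map_sub, map_mul, map_mul, h1, hzab]
      field_simp
      ring
    have h3 := hP _ h2 (n + c)
    rw [map_sub, comp_mul hb, comp_mul ha, homogeneousComponent_of_mem
      ((mem_homogeneousSubmodule n k).2 hkn), if_pos rfl, ← frac_eq_zero P, map_sub, map_mul,
      map_mul, sub_eq_zero] at h3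
    change frac P (homogeneousComponent n k') = z * frac P k
    rw [hzab, div_mul_eq_mul_div, ← h3, mul_div_cancel_left₀ _ hb0]

end prime

/-- **The Hilbert function is divisible by `l`.** -/
theorem hil_dvd_of {l : ℕ} (I : Ideal (MvPolynomial (Fin N) F)) (hI : Hom I)
    (H : ∀ (E : Type u) [Field E] [Algebra F E] [Algebra.EssFiniteType F E] (x : Fin N → E),
      x ≠ 0 → (∀ f ∈ I, (∃ d, f.IsHomogeneous d) → aeval x f = 0) →
      ∃ a : E, IsAlgebraic F a ∧ l ∣ (minpoly F a).natDegree) :
    ∀ᶠ n in Filter.atTop, l ∣ hil I n := by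
  induction I using WellFoundedGT.induction with
  | ind I ih =>
    have hih : ∀ J, I < J → Hom J → ∀ᶠ n in Filter.atTop, l ∣ hil J n := by
      intro J hJ hJh
      refine ih J hJ hJh fun E _ _ _ x hx hf => H E x hx fun f hfI => hf f (hJ.le hfI)
    by_cases htop : I = ⊤
    · subst htop
      exact Filter.Eventually.of_forall fun n => by rw [hil_top]; exact dvd_zero _
    by_cases hp : I.IsPrime
    · by_cases hX : ∀ i, (X i : MvPolynomial (Fin N) F) ∈ I
      · filter_upwards [Filter.eventually_gt_atTop 0] with n hn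
        rw [hil_eq_zero hX hn]
        exact dvd_zero _
      push Not at hX
      obtain ⟨j, hj⟩ := hX
      have hj0 : frac I (X j) ≠ 0 := fun h => hj ((frac_eq_zero I).1 h)
      set s : Set (FractionRing (MvPolynomial (Fin N) F ⧸ I)) :=
        Set.range fun i => frac I (X i) / frac I (X j) with hs
      have hfg : Algebra.EssFiniteType F (IntermediateField.adjoin F s) := by
        rw [IntermediateField.essFiniteType_iff]
        exact IntermediateField.fg_adjoin_of_finite (Set.finite_range _)
      let x : Fin N → IntermediateField.adjoin F s := fun i =>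
        ⟨frac I (X i) / frac I (X j), IntermediateField.subset_adjoin F s ⟨i, rfl⟩⟩
      obtain ⟨⟨z, hzE⟩, hz, hzl⟩ := H (IntermediateField.adjoin F s) x (by
        intro h
        have h1 := congrArg Subtype.val (congrFun h j)
        change frac I (X j) / frac I (X j) = 0 at h1
        rw [div_self hj0] at h1
        exact one_ne_zero h1) (by
        rintro f hf ⟨d, hd⟩
        have h1 : ((aeval x f : IntermediateField.adjoin F s) :
            FractionRing (MvPolynomial (Fin N) F ⧸ I)) =
            aeval (fun i => frac I (X i) / frac I (X j)) f := by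
          have := MvPolynomial.aeval_algebraMap_apply
            (FractionRing (MvPolynomial (Fin N) F ⧸ I)) x f
          exact this.symm
        apply Subtype.ext
        rw [h1, aeval_div hd, aeval_frac, (frac_eq_zero I).2 hf, zero_div]
        rfl)
      have hz' : IsAlgebraic F z := by
        have := hz.algebraMap (A := FractionRing (MvPolynomial (Fin N) F ⧸ I))
        exact this
      have hmin : minpoly F z = minpoly F (⟨z, hzE⟩ : IntermediateField.adjoin F s) :=
        (minpoly.algebraMap_eq (B := IntermediateField.adjoin F s)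
          (B' := FractionRing (MvPolynomial (Fin N) F ⧸ I)) Subtype.val_injective ⟨z, hzE⟩)
      obtain ⟨c, a, b, ha, hb, hbP, hzab⟩ := exists_quot I hj hzE
      obtain ⟨J, hJ, hIJ, hJn⟩ := exists_larger I hI hz' ha hb hbP hzab
      filter_upwards [hih J hIJ hJ] with n hn
      have h1 := finrank_part_eq I hIJ.le n
      have h2 := finrank_part_add_hil I n
      have h3 := finrank_part_add_hil J n
      have h4 : hil I n = hil J n + finrank F ((part J n).map (frac I).toLinearMap) := by omega
      rw [h4]
      exact dvd_add hn ((hmin ▸ hzl).trans (hJn n))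
    · obtain ⟨a, b, c, d, ha, hb, haI, hbI, hab⟩ := exists_forms hI htop hp
      have h1 : ∀ᶠ n in Filter.atTop, l ∣ hil (I ⊔ Ideal.span {a}) n := by
        refine hih _ (lt_of_le_of_ne le_sup_left fun h => haI ?_)
          (hI.sup (hom_span _ (by rintro _ rfl; exact ⟨c, ha⟩)))
        rw [h]
        exact Ideal.mem_sup_right (Ideal.mem_span_singleton_self a)
      have h2 : ∀ᶠ n in Filter.atTop, l ∣ hil (col I a) n := by
        refine hih _ (lt_of_le_of_ne (fun g hg => mem_col.2 (Ideal.mul_mem_left _ _ hg))
          fun h => hbI ?_) (hI.col ha)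
        rw [h]
        exact mem_col.2 hab
      obtain ⟨n₁, h1⟩ := Filter.eventually_atTop.1 h1
      obtain ⟨n₂, h2⟩ := Filter.eventually_atTop.1 h2
      refine Filter.eventually_atTop.2 ⟨n₁ + n₂ + c, fun n hn => ?_⟩
      obtain ⟨m, rfl⟩ : ∃ m, n = m + c := ⟨n - c, by omega⟩
      rw [hil_add hI ha]
      exact dvd_add (h1 _ (by omega)) (h2 _ (by omega))

/-- Every common zero of a system of forms over `F` in a finitely generated regular extension of
`F` gives a common zero over `F` (pseudo algebraically closed fields). -/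
def HomPAC (F : Type u) [Field F] : Prop :=
  ∀ (E : Type u) [Field E] [Algebra F E] [Algebra.EssFiniteType F E],
    (∀ a : E, IsAlgebraic F a → a ∈ (algebraMap F E).range) →
    ∀ (N : ℕ) (x : Fin N → E), x ≠ 0 → ∀ S : Set (MvPolynomial (Fin N) F),
      (∀ f ∈ S, ∃ d, f.IsHomogeneous d) → (∀ f ∈ S, aeval x f = 0) →
      ∃ y : Fin N → F, y ≠ 0 ∧ ∀ f ∈ S, eval y f = 0

/-- The Hilbert function of a homogeneous ideal without nontrivial zeros in `F`. -/
theorem hil_dvd {l : ℕ}
    (hF : ∀ (E : Type u) [Field E] [Algebra F E] (a : E), IsAlgebraic F a →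
      a ∉ (algebraMap F E).range → l ∣ finrank F (IntermediateField.adjoin F {a}))
    (hP : HomPAC F) (I : Ideal (MvPolynomial (Fin N) F)) (hI : Hom I)
    (h0 : ∀ x : Fin N → F, x ≠ 0 → ∃ f ∈ I, eval x f ≠ 0) :
    ∀ᶠ n in Filter.atTop, l ∣ hil I n := by
  refine hil_dvd_of I hI fun E _ _ _ x hx hf => ?_
  by_contra hcon
  push Not at hcon
  obtain ⟨y, hy, hy0⟩ := hP E (fun a ha => by
    by_contra hr
    have h1 := hF E a ha hr
    rw [IntermediateField.adjoin.finrank ha.isIntegral] at h1
    exact hcon a ha h1) N x hx {f | f ∈ I ∧ ∃ d, f.IsHomogeneous d} (fun f hf => hf.2)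
    (fun f hf' => hf f hf'.1 hf'.2)
  obtain ⟨f, hfI, hf0⟩ := h0 y hy
  apply hf0
  rw [← sum_homogeneousComponent f, map_sum]
  exact Finset.sum_eq_zero fun i _ => hy0 _ ⟨hI f hfI i, i, homogeneousComponent_isHomogeneous _ _⟩

end BD
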