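import Mathlib

/-!
# A birational model of a finitely generated extension of a perfect field (Helper71, row A2)

`BD.exists_model` : a finitely generated extension `E` of a perfect field `F` is generated by
algebraically independent elements `t` and one element `θ`, integral and separable over `F[t]`, and
every element of `E` is the quotient of an element of `F[t][θ]` by an element of `F[t]`.
-/

set_option autoImplicit false

open Polynomial

namespace BD

universe u

/-- Multiples of polynomials over the field of fractions. -/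
theorem exists_mul_lift {R K : Type*} [CommRing R] [IsDomain R] [Field K] [Algebra R K]
    [IsFractionRing R K] (p : K[X]) :
    ∃ (b : R) (q : R[X]), b ≠ 0 ∧ q.map (algebraMap R K) = C (algebraMap R K b) * p := by
  obtain ⟨b, hb₁, hb₂⟩ := IsLocalization.integerNormalization_spec (nonZeroDivisors R) p
  refine ⟨b, IsLocalization.integerNormalization (nonZeroDivisors R) p,
    nonZeroDivisors.ne_zero hb₁, ?_⟩
  rw [hb₂]
  ext n
  rw [coeff_smul, coeff_C_mul, Algebra.smul_def]

theorem exists_model (F E : Type u) [Field F] [PerfectField F] [Field E] [Algebra F E]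
    [Algebra.EssFiniteType F E] :
    ∃ (σ : Type u) (t : σ → E) (θ : E) (G : (MvPolynomial σ F)[X]),
      Function.Injective (MvPolynomial.aeval t : MvPolynomial σ F →ₐ[F] E) ∧ G.Monic ∧
      (∀ Q : (MvPolynomial σ F)[X],
        Q.eval₂ (MvPolynomial.aeval t : MvPolynomial σ F →ₐ[F] E).toRingHom θ = 0 ↔ G ∣ Q) ∧
      (∃ (r : MvPolynomial σ F) (u v : (MvPolynomial σ F)[X]), r ≠ 0 ∧
        u * G + v * derivative G = C r) ∧
      ∀ z : E, ∃ (D : MvPolynomial σ F) (P : (MvPolynomial σ F)[X]), D ≠ 0 ∧
        MvPolynomial.aeval t D * z =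
          P.eval₂ (MvPolynomial.aeval t : MvPolynomial σ F →ₐ[F] E).toRingHom θ := by
  obtain ⟨s, hs, hsep⟩ := exists_isTranscendenceBasis_and_isSeparable_of_perfectField F E
  let S : Set E := (s : Set E)
  let K₀ := IntermediateField.adjoin F S
  let φ : MvPolynomial S F →ₐ[F] E := MvPolynomial.aeval Subtype.val
  have hφ : Function.Injective φ := hs.1
  have hmem : ∀ p, φ p ∈ K₀.toSubalgebra := by
    intro p
    have h1 : φ p ∈ Algebra.adjoin F S := by
      have h2 := Algebra.adjoin_range_eq_range_aeval F (Subtype.val : S → E)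
      rw [Subtype.range_coe] at h2
      rw [h2]
      exact ⟨p, rfl⟩
    exact IntermediateField.algebra_adjoin_le_adjoin F S h1
  let φ₀ : MvPolynomial S F →ₐ[F] K₀ := φ.codRestrict K₀.toSubalgebra hmem
  let _ : Algebra (MvPolynomial S F) K₀ := φ₀.toRingHom.toAlgebra
  let _ : Algebra (MvPolynomial S F) E := φ.toRingHom.toAlgebra
  have hinj₀ : Function.Injective (algebraMap (MvPolynomial S F) K₀) := fun a b h =>
    hφ (congrArg Subtype.val h)
  have htow : IsScalarTower (MvPolynomial S F) K₀ E := IsScalarTower.of_algebraMap_eq fun _ => rfl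
  have hfaith : FaithfulSMul (MvPolynomial S F) K₀ :=
    (faithfulSMul_iff_algebraMap_injective _ _).2 hinj₀
  have hfrac : IsFractionRing (MvPolynomial S F) K₀ := IsFractionRing.of_field _ _ fun z => by
    obtain ⟨a, b, hab⟩ := (IntermediateField.mem_adjoin_iff F (z : E)).1 z.2
    exact ⟨a, b, Subtype.ext hab⟩
  have hess : Algebra.EssFiniteType K₀ E := Algebra.EssFiniteType.of_comp F K₀ E
  have hsep' : Algebra.IsSeparable K₀ E := hsep
  have hfin : Module.Finite K₀ E := Algebra.finite_of_essFiniteType_of_isAlgebraic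
  obtain ⟨θ₀, hθ₀⟩ := Field.exists_primitive_element K₀ E
  have halg : IsAlgebraic (MvPolynomial S F) θ₀ :=
    (IsFractionRing.isAlgebraic_iff (MvPolynomial S F) K₀ E).2 (Algebra.IsAlgebraic.isAlgebraic θ₀)
  obtain ⟨y, hy0, hint⟩ := halg.exists_integral_multiple
  set θ : E := y • θ₀ with hθ
  have hc0 : algebraMap (MvPolynomial S F) K₀ y ≠ 0 := fun h => hy0 (hinj₀ (by rw [h, map_zero]))
  have hθc : θ = algebraMap K₀ E (algebraMap (MvPolynomial S F) K₀ y) * θ₀ := by
    rw [hθ, Algebra.smul_def]
    rfl
  have htop : Algebra.adjoin K₀ {θ} = ⊤ := by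
    have h1 : IntermediateField.adjoin K₀ {θ} = ⊤ := by
      rw [eq_top_iff, ← hθ₀, IntermediateField.adjoin_simple_le_iff]
      have h2 : θ₀ = algebraMap K₀ E (algebraMap (MvPolynomial S F) K₀ y)⁻¹ * θ := by
        rw [hθc, ← mul_assoc, ← map_mul, inv_mul_cancel₀ hc0, map_one, one_mul]
      rw [h2]
      exact mul_mem (IntermediateField.algebraMap_mem _ _)
        (IntermediateField.mem_adjoin_simple_self K₀ θ)
    rw [← IntermediateField.adjoin_simple_toSubalgebra_of_isAlgebraic
      (Algebra.IsAlgebraic.isAlgebraic θ), h1, IntermediateField.top_toSubalgebra]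
  have htf : Module.IsTorsionFree (MvPolynomial S F) E := by
    have : FaithfulSMul (MvPolynomial S F) E := (faithfulSMul_iff_algebraMap_injective _ _).2 hφ
    infer_instance
  refine ⟨S, Subtype.val, θ, minpoly (MvPolynomial S F) θ, hφ, minpoly.monic hint,
    fun Q => minpoly.isIntegrallyClosed_dvd_iff hint Q, ?_, ?_⟩
  · have h1 : (minpoly K₀ θ).Separable := Algebra.IsSeparable.isSeparable K₀ θ
    rw [minpoly.isIntegrallyClosed_eq_field_fractions' K₀ hint] at h1
    obtain ⟨a, b, hab⟩ := h1
    obtain ⟨ca, a', hca, ha'⟩ := exists_mul_lift (R := MvPolynomial S F) a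
    obtain ⟨cb, b', hcb, hb'⟩ := exists_mul_lift (R := MvPolynomial S F) b
    refine ⟨ca * cb, C cb * a', C ca * b', mul_ne_zero hca hcb, ?_⟩
    apply Polynomial.map_injective _ hinj₀
    rw [Polynomial.map_add, Polynomial.map_mul, Polynomial.map_mul, Polynomial.map_mul,
      Polynomial.map_mul, map_C, map_C, map_C, ha', hb', ← derivative_map, map_mul, C_mul]
    linear_combination (C (algebraMap (MvPolynomial S F) K₀ ca) *
      C (algebraMap (MvPolynomial S F) K₀ cb)) * hab
  · intro z
    have hz : z ∈ Algebra.adjoin K₀ {θ} := by rw [htop]; trivial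
    rw [Algebra.adjoin_singleton_eq_range_aeval] at hz
    obtain ⟨q, rfl⟩ := hz
    obtain ⟨D, P, hD, hP⟩ := exists_mul_lift (R := MvPolynomial S F) q
    refine ⟨D, P, hD, ?_⟩
    have h1 : P.eval₂ φ.toRingHom θ = aeval θ (P.map (algebraMap (MvPolynomial S F) K₀)) := by
      rw [aeval_def, eval₂_map]
      rfl
    change _ = P.eval₂ φ.toRingHom θ
    rw [h1, hP, map_mul, aeval_C]
    rfl

end BD
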