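import Pool.Agent.Helper71.BD.Plane
import Pool.Agent.Helper71.BD.Bertini
import Pool.Agent.Helper71.BD.AbsIrr
import Pool.Agent.Helper71.BD.Model
import Pool.Agent.Helper71.BD.Dvd

/-!
# Reduction of pseudo algebraic closedness to plane curves (Helper71, row A2 of PROJECT BD)
-/

set_option autoImplicit false

open Polynomial

namespace BD

universe u

theorem homPAC_of_plane {F : Type u} [Field F] [PerfectField F] [Infinite F]
    (h : PlanePAC F) : HomPAC F := by
  intro E _ _ _ halg N x hx S hS hx0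
  classical
  obtain ⟨j, hj⟩ : ∃ j, x j ≠ 0 := by
    by_contra hcon
    push Not at hcon
    exact hx (funext hcon)
  let y : Fin N → E := fun i => x i / x j
  have hyj : y j = 1 := div_self hj
  have hy0 : ∀ f ∈ S, MvPolynomial.aeval y f = 0 := by
    intro f hf
    obtain ⟨d, hd⟩ := hS f hf
    have h1 := aeval_div hd (x j) x
    rw [hx0 f hf, zero_div] at h1
    exact h1
  obtain ⟨σ, t, θ, G, hinj, hG, hdvd, ⟨r, u, v, hr, huv⟩, hz⟩ := exists_model F E
  set φ : MvPolynomial σ F →+* E :=
    (MvPolynomial.aeval t : MvPolynomial σ F →ₐ[F] E).toRingHom with hφ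
  choose D P hD hP using fun i => hz (y i)
  set D₀ : MvPolynomial σ F := ∏ i, D i with hD₀
  have hD₀0 : D₀ ≠ 0 := Finset.prod_ne_zero_iff.2 fun i _ => hD i
  let Q : Fin N → (MvPolynomial σ F)[X] := fun i => C (∏ k ∈ Finset.univ.erase i, D k) * P i
  have hQ : ∀ i, (Q i).eval₂ φ θ = φ D₀ * y i := by
    intro i
    have h1 : φ D₀ = φ (∏ k ∈ Finset.univ.erase i, D k) * φ (D i) := by
      rw [← map_mul, hD₀, mul_comm, Finset.mul_prod_erase _ _ (Finset.mem_univ i)]
    have h2 : φ (D i) * y i = (P i).eval₂ φ θ := hP i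
    simp only [Q]
    rw [eval₂_mul, eval₂_C, h1, mul_assoc, h2]
  have hirr := abs_irreducible halg t θ G hG hdvd
  obtain ⟨a, b, hD', hr', hirr'⟩ := bertini G hG hirr hr huv hD₀0
  obtain ⟨τ, η, h1, h2⟩ := h (G.map (lin a b).toRingHom) (u.map (lin a b).toRingHom)
    (v.map (lin a b).toRingHom) (lin a b r) (lin a b D₀) (hG.map _) hr' (by
      have h3 := congrArg (Polynomial.map (lin a b).toRingHom) huv
      rw [Polynomial.map_add, Polynomial.map_mul, Polynomial.map_mul, map_C,
        ← derivative_map] at h3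
      exact h3) hirr' hD'
  set ψ : MvPolynomial σ F →+* F := (evalRingHom τ).comp (lin a b).toRingHom with hψ
  have hGψ : G.eval₂ ψ η = 0 := by
    rw [map_map, ← hψ, eval_map] at h1
    exact h1
  have hspec : ∀ R : (MvPolynomial σ F)[X], R.eval₂ φ θ = 0 → R.eval₂ ψ η = 0 := by
    intro R hR
    obtain ⟨T, rfl⟩ := (hdvd R).1 hR
    rw [eval₂_mul, hGψ, zero_mul]
  refine ⟨fun i => (Q i).eval₂ ψ η, fun h0 => h2 ?_, fun f hf => ?_⟩
  · have h3 := hspec (Q j - C D₀) (by rw [eval₂_sub, eval₂_C, hQ, hyj, mul_one, sub_self])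
    rw [eval₂_sub, eval₂_C, sub_eq_zero] at h3
    have h4 : (Q j).eval₂ ψ η = 0 := congrFun h0 j
    rw [h4] at h3
    exact h3.symm
  · obtain ⟨d, hd⟩ := hS f hf
    have h3 : ∀ {A : Type u} [Field A] [Algebra F A] (ρ : MvPolynomial σ F →+* A) (c : A)
        (hρ : ∀ s, ρ (MvPolynomial.C s) = algebraMap F A s),
        (MvPolynomial.aeval Q f).eval₂ ρ c = MvPolynomial.aeval (fun i => (Q i).eval₂ ρ c) f := by
      intro A _ _ ρ c hρ
      have h4 := MvPolynomial.map_aeval Q (eval₂RingHom ρ c) f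
      have h5 : (eval₂RingHom ρ c).comp (algebraMap F (MvPolynomial σ F)[X]) =
          algebraMap F A := by
        ext s
        rw [RingHom.comp_apply]
        have h6 : algebraMap F (MvPolynomial σ F)[X] s = C (MvPolynomial.C s) := rfl
        rw [h6, coe_eval₂RingHom, eval₂_C, hρ]
      rw [h5] at h4
      exact h4
    have h4 := h3 φ θ (fun s => by
      change MvPolynomial.aeval t (MvPolynomial.C s) = _
      rw [MvPolynomial.aeval_C])
    have h5 := h3 ψ η (fun s => by
      rw [hψ, RingHom.comp_apply]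
      have h6 : (lin a b).toRingHom (MvPolynomial.C s) = C s := by
        change lin a b (MvPolynomial.C s) = C s
        rw [lin, MvPolynomial.aeval_C]
        rfl
      rw [h6]
      simp)
    have h6 : MvPolynomial.aeval (fun i => (Q i).eval₂ φ θ) f = 0 := by
      have h7 : (fun i => (Q i).eval₂ φ θ) = fun i => y i / (φ D₀)⁻¹ := by
        funext i
        rw [hQ, div_inv_eq_mul, mul_comm]
      rw [h7, aeval_div hd, hy0 f hf, zero_div]
    rw [h6] at h4
    have h7 := hspec _ h4
    rw [h5] at h7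
    exact h7

end BD
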