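import Mathlib

/-!
# Hilbert functions of homogeneous ideals (Helper71, row A1 of PROJECT BD)

* `BD.Hom I` : the ideal `I` of `F[x₁, …, x_N]` is homogeneous;
* `BD.hil I n` : the dimension of the degree `n` part of `F[x] / I`;
* `BD.hil_add` : `h_I (n + d) = h_{I + f} (n + d) + h_{I : f} (n)` for a form `f` of degree `d`.
-/

set_option autoImplicit false

open MvPolynomial Module

namespace BD

universe u

variable {F : Type u} [Field F] {N : ℕ}

/-- Homogeneous ideals. -/
def Hom (I : Ideal (MvPolynomial (Fin N) F)) : Prop :=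
  ∀ p ∈ I, ∀ n, homogeneousComponent n p ∈ I

/-- The degree `n` part of an ideal. -/
noncomputable def part (I : Ideal (MvPolynomial (Fin N) F)) (n : ℕ) : Submodule F (MvPolynomial (Fin N) F) :=
  I.restrictScalars F ⊓ homogeneousSubmodule (Fin N) F n

/-- The dimension of the degree `n` part of the quotient by the ideal `I`. -/
noncomputable def hil (I : Ideal (MvPolynomial (Fin N) F)) (n : ℕ) : ℕ :=
  finrank F (homogeneousSubmodule (Fin N) F n) - finrank F (part I n)

/-- The ideal `I : f`. -/
noncomputable def col (I : Ideal (MvPolynomial (Fin N) F)) (f : MvPolynomial (Fin N) F) :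
    Ideal (MvPolynomial (Fin N) F) :=
  Submodule.comap (LinearMap.mulLeft (MvPolynomial (Fin N) F) f) I

theorem mem_col {I : Ideal (MvPolynomial (Fin N) F)} {f g : MvPolynomial (Fin N) F} :
    g ∈ col I f ↔ f * g ∈ I := Iff.rfl

theorem mem_part {I : Ideal (MvPolynomial (Fin N) F)} {n : ℕ} {g : MvPolynomial (Fin N) F} :
    g ∈ part I n ↔ g ∈ I ∧ g.IsHomogeneous n := by
  rw [part, Submodule.mem_inf, mem_homogeneousSubmodule, Submodule.restrictScalars_mem]

instance finHom (n : ℕ) : FiniteDimensional F (homogeneousSubmodule (Fin N) F n) :=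
  Module.Finite.iff_fg.mpr (homogeneousSubmodule_fg (Fin N) F n)

theorem part_le (I : Ideal (MvPolynomial (Fin N) F)) (n : ℕ) :
    part I n ≤ homogeneousSubmodule (Fin N) F n := inf_le_right

instance finPart (I : Ideal (MvPolynomial (Fin N) F)) (n : ℕ) : FiniteDimensional F (part I n) :=
  Submodule.finiteDimensional_of_le (part_le I n)

theorem part_mono {I J : Ideal (MvPolynomial (Fin N) F)} (h : I ≤ J) (n : ℕ) :
    part I n ≤ part J n := fun _ hg => mem_part.2 ⟨h (mem_part.1 hg).1, (mem_part.1 hg).2⟩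

theorem finrank_part_le (I : Ideal (MvPolynomial (Fin N) F)) (n : ℕ) :
    finrank F (part I n) ≤ finrank F (homogeneousSubmodule (Fin N) F n) :=
  Submodule.finrank_mono (part_le I n)

theorem finrank_part_add_hil (I : Ideal (MvPolynomial (Fin N) F)) (n : ℕ) :
    finrank F (part I n) + hil I n = finrank F (homogeneousSubmodule (Fin N) F n) := by
  have := finrank_part_le I n
  rw [hil]
  omega

theorem hil_top (n : ℕ) : hil (⊤ : Ideal (MvPolynomial (Fin N) F)) n = 0 := by
  have : part (⊤ : Ideal (MvPolynomial (Fin N) F)) n = homogeneousSubmodule (Fin N) F n := by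
    ext g
    rw [mem_part, mem_homogeneousSubmodule]
    simp
  rw [hil, this]
  omega

/-- The components of a product with a form. -/
theorem comp_mul {f g : MvPolynomial (Fin N) F} {d : ℕ} (hf : f.IsHomogeneous d) (n : ℕ) :
    homogeneousComponent (n + d) (f * g) = f * homogeneousComponent n g := by
  classical
  conv_lhs => rw [← sum_homogeneousComponent g, Finset.mul_sum, map_sum]
  have h1 : ∀ i ∈ Finset.range (g.totalDegree + 1),
      homogeneousComponent (n + d) (f * homogeneousComponent i g) =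
        if i = n then f * homogeneousComponent n g else 0 := by
    intro i _
    have h2 : (f * homogeneousComponent i g) ∈ homogeneousSubmodule (Fin N) F (i + d) := by
      rw [mem_homogeneousSubmodule, add_comm]
      exact hf.mul (homogeneousComponent_isHomogeneous i g)
    rw [homogeneousComponent_of_mem h2]
    by_cases h : i = n
    · rw [if_pos (by omega), if_pos h, h]
    · rw [if_neg (by omega), if_neg h]
  rw [Finset.sum_congr rfl h1, Finset.sum_ite_eq' (Finset.range (g.totalDegree + 1)) n]
  split_ifs with h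
  · rfl
  · rw [Finset.mem_range, not_lt] at h
    rw [homogeneousComponent_eq_zero n g (by omega), mul_zero]

theorem comp_mul_lt {f g : MvPolynomial (Fin N) F} {d n : ℕ} (hf : f.IsHomogeneous d)
    (hn : n < d) : homogeneousComponent n (f * g) = 0 := by
  classical
  rw [← sum_homogeneousComponent g, Finset.mul_sum, map_sum]
  refine Finset.sum_eq_zero fun i _ => ?_
  have h2 : (f * homogeneousComponent i g) ∈ homogeneousSubmodule (Fin N) F (i + d) := by
    rw [mem_homogeneousSubmodule, add_comm]
    exact hf.mul (homogeneousComponent_isHomogeneous i g)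
  rw [homogeneousComponent_of_mem h2, if_neg (by omega)]

theorem Hom.sup {I J : Ideal (MvPolynomial (Fin N) F)} (hI : Hom I) (hJ : Hom J) :
    Hom (I ⊔ J) := by
  intro p hp n
  obtain ⟨a, ha, b, hb, rfl⟩ := Submodule.mem_sup.1 hp
  rw [map_add]
  exact Ideal.add_mem _ (Ideal.mem_sup_left (hI a ha n)) (Ideal.mem_sup_right (hJ b hb n))

theorem comp_mul_mem {I : Ideal (MvPolynomial (Fin N) F)} (a x : MvPolynomial (Fin N) F)
    (hx : ∀ n, homogeneousComponent n x ∈ I) (n : ℕ) : homogeneousComponent n (a * x) ∈ I := by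
  rw [← sum_homogeneousComponent a, Finset.sum_mul, map_sum]
  refine Ideal.sum_mem _ fun i _ => ?_
  have hi := homogeneousComponent_isHomogeneous i a
  rcases Nat.lt_or_ge n i with h | h
  · rw [comp_mul_lt hi h]
    exact Ideal.zero_mem _
  · obtain ⟨m, rfl⟩ := Nat.exists_eq_add_of_le' h
    rw [comp_mul hi]
    exact Ideal.mul_mem_left _ _ (hx m)

theorem hom_span (s : Set (MvPolynomial (Fin N) F)) (hs : ∀ f ∈ s, ∃ d, f.IsHomogeneous d) :
    Hom (Ideal.span s) := by
  intro p hp
  induction hp using Submodule.span_induction with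
  | mem f hf =>
    intro n
    obtain ⟨d, hd⟩ := hs f hf
    rw [homogeneousComponent_of_mem ((mem_homogeneousSubmodule d f).2 hd)]
    split_ifs
    · exact Ideal.subset_span hf
    · exact Ideal.zero_mem _
  | zero => intro n; rw [map_zero]; exact Ideal.zero_mem _
  | add x y _ _ hx hy => intro n; rw [map_add]; exact Ideal.add_mem _ (hx n) (hy n)
  | smul a x _ hx => exact comp_mul_mem a x hx

theorem hom_bot : Hom (⊥ : Ideal (MvPolynomial (Fin N) F)) := by
  intro p hp n
  rw [Ideal.mem_bot.1 hp, map_zero]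
  exact Ideal.zero_mem _

theorem Hom.col {I : Ideal (MvPolynomial (Fin N) F)} (hI : Hom I) {f : MvPolynomial (Fin N) F}
    {d : ℕ} (hf : f.IsHomogeneous d) : Hom (col I f) := by
  intro p hp n
  rw [mem_col] at hp ⊢
  rw [← comp_mul hf]
  exact hI _ hp _

/-- The degree `n + d` part of `I + (f)`. -/
theorem part_sup {I : Ideal (MvPolynomial (Fin N) F)} (hI : Hom I) {f : MvPolynomial (Fin N) F}
    {d : ℕ} (hf : f.IsHomogeneous d) (n : ℕ) :
    part (I ⊔ Ideal.span {f}) (n + d) =
      part I (n + d) ⊔ (homogeneousSubmodule (Fin N) F n).map (LinearMap.mulLeft F f) := by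
  ext p
  rw [Submodule.mem_sup]
  constructor
  · intro hp
    obtain ⟨hp, hpn⟩ := mem_part.1 hp
    obtain ⟨a, ha, b, hb, hab⟩ := Submodule.mem_sup.1 hp
    obtain ⟨c, rfl⟩ := Ideal.mem_span_singleton.1 hb
    refine ⟨homogeneousComponent (n + d) a, mem_part.2 ⟨hI a ha _,
      homogeneousComponent_isHomogeneous _ _⟩, f * homogeneousComponent n c,
      ⟨homogeneousComponent n c, homogeneousComponent_mem n c, rfl⟩, ?_⟩
    rw [← comp_mul hf, ← map_add, hab]
    rw [homogeneousComponent_of_mem ((mem_homogeneousSubmodule _ p).2 hpn), if_pos rfl]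
  · rintro ⟨a, ha, b, ⟨c, hc, rfl⟩, rfl⟩
    have hc' : c.IsHomogeneous n := hc
    refine mem_part.2 ⟨Ideal.add_mem _ (Ideal.mem_sup_left (mem_part.1 ha).1)
      (Ideal.mem_sup_right (Ideal.mem_span_singleton.2 (dvd_mul_right f c))), ?_⟩
    refine (mem_part.1 ha).2.add ?_
    rw [add_comm]
    exact hf.mul hc'

theorem part_sup_lt {I : Ideal (MvPolynomial (Fin N) F)} (hI : Hom I)
    {f : MvPolynomial (Fin N) F} {d : ℕ} (hf : f.IsHomogeneous d) {n : ℕ} (hn : n < d) :
    part (I ⊔ Ideal.span {f}) n = part I n := by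
  apply le_antisymm _ (part_mono le_sup_left n)
  intro p hp
  obtain ⟨hp, hpn⟩ := mem_part.1 hp
  obtain ⟨a, ha, b, hb, hab⟩ := Submodule.mem_sup.1 hp
  obtain ⟨c, rfl⟩ := Ideal.mem_span_singleton.1 hb
  refine mem_part.2 ⟨?_, hpn⟩
  have h1 : homogeneousComponent n p = p := by
    rw [homogeneousComponent_of_mem ((mem_homogeneousSubmodule _ p).2 hpn), if_pos rfl]
  rw [← h1, ← hab, map_add, comp_mul_lt hf hn, add_zero]
  exact hI a ha n

/-- The degree `n` part of `I : f`. -/
theorem part_col {I : Ideal (MvPolynomial (Fin N) F)} {f : MvPolynomial (Fin N) F}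
    {d : ℕ} (hf : f.IsHomogeneous d) (n : ℕ) :
    (part (col I f) n).map (LinearMap.mulLeft F f) =
      part I (n + d) ⊓ (homogeneousSubmodule (Fin N) F n).map (LinearMap.mulLeft F f) := by
  ext p
  constructor
  · rintro ⟨c, hc, rfl⟩
    obtain ⟨h1, h2⟩ := mem_part.1 hc
    refine ⟨mem_part.2 ⟨h1, ?_⟩, ⟨c, h2, rfl⟩⟩
    rw [add_comm]
    exact hf.mul h2
  · rintro ⟨hp, ⟨c, hc, rfl⟩⟩
    exact ⟨c, mem_part.2 ⟨(mem_part.1 hp).1, hc⟩, rfl⟩

/-- **The Hilbert function of `I + (f)` and of `I : f`.** -/
theorem hil_add {I : Ideal (MvPolynomial (Fin N) F)} (hI : Hom I) {f : MvPolynomial (Fin N) F}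
    {d : ℕ} (hf : f.IsHomogeneous d) (n : ℕ) :
    hil I (n + d) = hil (I ⊔ Ideal.span {f}) (n + d) + hil (col I f) n := by
  by_cases h0 : f = 0
  · subst h0
    have h1 : col I (0 : MvPolynomial (Fin N) F) = ⊤ := by
      rw [eq_top_iff]
      intro g _
      rw [mem_col, zero_mul]
      exact Ideal.zero_mem _
    have h2 : I ⊔ Ideal.span {(0 : MvPolynomial (Fin N) F)} = I := by
      rw [Ideal.span_singleton_zero, sup_bot_eq]
    rw [h1, h2, hil_top]
    rfl
  · have hinj : Function.Injective (LinearMap.mulLeft F f) := fun a b h =>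
      mul_left_cancel₀ h0 h
    have h1 := Submodule.finrank_sup_add_finrank_inf_eq (part I (n + d))
      ((homogeneousSubmodule (Fin N) F n).map (LinearMap.mulLeft F f))
    rw [← part_sup hI hf, ← part_col hf, ← (Submodule.equivMapOfInjective _ hinj _).finrank_eq,
      ← (Submodule.equivMapOfInjective _ hinj _).finrank_eq] at h1
    have h2 := finrank_part_add_hil I (n + d)
    have h3 := finrank_part_add_hil (I ⊔ Ideal.span {f}) (n + d)
    have h4 := finrank_part_add_hil (col I f) n
    omega

theorem hil_add_lt {I : Ideal (MvPolynomial (Fin N) F)} (hI : Hom I)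
    {f : MvPolynomial (Fin N) F} {d : ℕ} (hf : f.IsHomogeneous d) {n : ℕ} (hn : n < d) :
    hil I n = hil (I ⊔ Ideal.span {f}) n := by
  rw [hil, hil, part_sup_lt hI hf hn]

end BD
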