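import Mathlib

/-!
# Monic polynomials with as many roots as their degree (Helper71, row A2 of PROJECT BD)
-/

set_option autoImplicit false

open Polynomial

namespace BD

/-- A monic polynomial of degree `n` with `n` different roots. -/
theorem eq_prod_of_roots {A ι : Type*} [CommRing A] [IsDomain A] {P : A[X]} (hP : P.Monic)
    (s : Finset ι) (y : ι → A) (hy : Set.InjOn y s) (hr : ∀ i ∈ s, P.eval (y i) = 0)
    (hs : P.natDegree ≤ s.card) : P = ∏ i ∈ s, (X - C (y i)) := by
  have h1 : s.val.map y ≤ P.roots := by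
    rw [Multiset.le_iff_subset (Multiset.Nodup.map_on (fun a ha b hb h => hy ha hb h) s.nodup)]
    intro a ha
    obtain ⟨i, hi, rfl⟩ := Multiset.mem_map.1 ha
    exact (mem_roots hP.ne_zero).2 (hr i hi)
  have h2 : Multiset.card P.roots ≤ Multiset.card (s.val.map y) := by
    rw [Multiset.card_map]
    exact (card_roots' P).trans hs
  have h3 : s.val.map y = P.roots := Multiset.eq_of_le_of_card_le h1 h2
  have h4 : Multiset.card P.roots = P.natDegree := by
    apply le_antisymm (card_roots' P)
    rw [← h3, Multiset.card_map]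
    exact hs
  rw [← prod_multiset_X_sub_C_of_monic_of_roots_card_eq hP h4, ← h3, Multiset.map_map]
  rfl

/-- The monic factors of a monic polynomial of degree `n` with `n` different roots. -/
theorem exists_subset_of_mul {A ι : Type*} [CommRing A] [IsDomain A] {P U V : A[X]}
    (hU : U.Monic) (hV : V.Monic) (hUV : U * V = P)
    (s : Finset ι) (y : ι → A) (hy : Set.InjOn y s) (hr : ∀ i ∈ s, P.eval (y i) = 0)
    (hs : P.natDegree ≤ s.card) :
    ∃ t ⊆ s, U = ∏ i ∈ t, (X - C (y i)) ∧ U.natDegree = t.card ∧
      V.natDegree + t.card = s.card := by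
  classical
  set t := s.filter fun i => U.eval (y i) = 0 with ht
  set t' := s.filter fun i => ¬ U.eval (y i) = 0 with ht'
  have hcard : t.card + t'.card = s.card := Finset.card_filter_add_card_filter_not _
  have hdeg : U.natDegree + V.natDegree = P.natDegree := by rw [← hUV, hU.natDegree_mul hV]
  have hVr : ∀ i ∈ t', V.eval (y i) = 0 := by
    intro i hi
    rw [ht', Finset.mem_filter] at hi
    have h1 := hr i hi.1
    rw [← hUV, eval_mul] at h1
    exact (mul_eq_zero.1 h1).resolve_left hi.2
  have hcount : ∀ {Q : A[X]} (_ : Q ≠ 0) (u : Finset ι) (_ : u ⊆ s)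
      (_ : ∀ i ∈ u, Q.eval (y i) = 0), u.card ≤ Q.natDegree := by
    intro Q hQ u hu hQu
    rw [← Finset.card_image_of_injOn (fun a ha b hb h => hy (hu ha) (hu hb) h :
      Set.InjOn y u)]
    refine card_le_degree_of_subset_roots (p := Q) ?_
    intro a ha
    obtain ⟨i, hi, rfl⟩ := Finset.mem_image.1 ha
    exact (mem_roots hQ).2 (hQu i hi)
  have h1 : t.card ≤ U.natDegree := hcount hU.ne_zero t (Finset.filter_subset _ _)
    fun i hi => (Finset.mem_filter.1 hi).2
  have h2 : t'.card ≤ V.natDegree := hcount hV.ne_zero t' (Finset.filter_subset _ _) hVr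
  have hPc : s.card ≤ P.natDegree := hcount (hUV ▸ (hU.mul hV).ne_zero) s subset_rfl hr
  refine ⟨t, Finset.filter_subset _ _, ?_, by omega, by omega⟩
  exact eq_prod_of_roots hU t y (fun a ha b hb h => hy (Finset.mem_of_mem_filter a ha)
    (Finset.mem_of_mem_filter b hb) h) (fun i hi => (Finset.mem_filter.1 hi).2) (by omega)

end BD
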